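import Mathlib

/-!
# Finite abelian groups of order divisible by 2 or 3 with large Sidon sets

Let `G` be a finite abelian group which contains a Sidon set `A` with `m` elements, so
`|G| = m ^ 2 - m + 1 + e` with `e ≥ 0`; for `e ≤ 2 m - 1` this means that `G` attains the bound.

* `G` has at most `e` elements of order two.
* If `|G|` is even, there is an integer `s` with the parity of `m` and `|s ^ 2 - (m - 1)| ≤ e`.
* If `3` divides `|G|`, there is a number `N = x ^ 2 + x y + y ^ 2` with `|N - (m - 1)| ≤ e` and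
  `N = m ^ 2` modulo `3`.
* So if `m = k ^ 2 + k + 1` and `e < k`, no abelian group of even order `n`,
  `m ^ 2 - m + 1 ≤ n ≤ m ^ 2 - m + 1 + e`, attains the bound.
* For each `e`, the number of `m ≤ M` such that some abelian group of even order `n`,
  `m ^ 2 - m + 1 ≤ n ≤ m ^ 2 - m + 1 + e`, contains a Sidon set with `m` elements is at most
  `(2 e + 1) (√(M + e) + 1)`.

Proof: the differences of different elements of `A` are different, they are not of order two, and
exactly `e` elements different from zero are not such differences. Let `χ` be a character of order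
two or three and `s = ∑ χ(a)`, `a ∈ A`. Then `|s| ^ 2` is the sum of `χ(a - b)` over all `a, b ∈ A`,
that is `m - 1` minus the sum of `χ` over the `e` missing elements.
-/

set_option autoImplicit false

namespace Pool.Agent.Results.MP_f1f170_co.EvenOrder

open Finset

/-- `A` is a Sidon set: the sums `a + b` of two elements of `A` are different, up to order -/
def IsSidon {G : Type} [AddCommGroup G] (A : Finset G) : Prop :=
  ∀ a ∈ A, ∀ b ∈ A, ∀ c ∈ A, ∀ d ∈ A, a + b = c + d → (a = c ∧ b = d) ∨ (a = d ∧ b = c)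

section core

variable {G : Type} [AddCommGroup G] [Fintype G] [DecidableEq G]

omit [Fintype G] [DecidableEq G] in
/-- the differences of a Sidon set are different -/
theorem diff_inj {A : Finset G} (hA : IsSidon A) :
    Set.InjOn (fun p : G × G => p.1 - p.2) (A.offDiag : Set (G × G)) := by
  rintro ⟨a, b⟩ hab ⟨c, d⟩ hcd h
  simp only [Finset.mem_coe, mem_offDiag] at hab hcd
  have h1 : a - b = c - d := h
  have h2 : a + d = c + b := by
    calc a + d = (a - b) + b + d := by abel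
      _ = (c - d) + b + d := by rw [h1]
      _ = c + b := by abel
  rcases hA a hab.1 d hcd.2.1 c hcd.1 b hab.2.1 h2 with h3 | h3
  · rw [Prod.mk.injEq]
    exact ⟨h3.1, h3.2.symm⟩
  · exact absurd h3.1 hab.2.2

/-- the nonzero elements of `G` which are not differences of elements of `A` -/
def miss (A : Finset G) : Finset G :=
  (univ \ (A.offDiag.image fun p : G × G => p.1 - p.2)).erase 0

theorem card_miss {A : Finset G} (hA : IsSidon A) :
    (miss A).card + A.card * A.card + 1 = Fintype.card G + A.card := by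
  have h1 : (A.offDiag.image fun p : G × G => p.1 - p.2).card = A.card * A.card - A.card := by
    rw [card_image_of_injOn (diff_inj hA), offDiag_card]
  have h0 : (0 : G) ∈ univ \ (A.offDiag.image fun p : G × G => p.1 - p.2) := by
    rw [mem_sdiff, mem_image]
    refine ⟨mem_univ _, ?_⟩
    rintro ⟨⟨a, b⟩, hab, h⟩
    rw [mem_offDiag] at hab
    exact hab.2.2 (sub_eq_zero.1 h)
  have h2 : (univ \ (A.offDiag.image fun p : G × G => p.1 - p.2)).card +
      (A.offDiag.image fun p : G × G => p.1 - p.2).card = Fintype.card G := by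
    rw [card_sdiff_add_card_eq_card (subset_univ _), card_univ]
  have h3 : (miss A).card + 1 = (univ \ (A.offDiag.image fun p : G × G => p.1 - p.2)).card := by
    rw [miss, card_erase_add_one h0]
  have h4 : A.card ≤ A.card * A.card := Nat.le_mul_self _
  omega

/-- the sum of an integer valued function over all elements -/
theorem sum_split {A : Finset G} (hA : IsSidon A) (f : G → ℤ) :
    ∑ g, f g = f 0 + ∑ p ∈ A.offDiag, f (p.1 - p.2) + ∑ g ∈ miss A, f g := by
  have h0 : (0 : G) ∈ univ \ (A.offDiag.image fun p : G × G => p.1 - p.2) := by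
    rw [mem_sdiff, mem_image]
    refine ⟨mem_univ _, ?_⟩
    rintro ⟨⟨a, b⟩, hab, h⟩
    rw [mem_offDiag] at hab
    exact hab.2.2 (sub_eq_zero.1 h)
  rw [← sum_sdiff (subset_univ (A.offDiag.image fun p : G × G => p.1 - p.2)),
    sum_image (diff_inj hA), ← add_sum_erase _ _ h0, miss]
  ring

omit [Fintype G] in
theorem sum_prod_eq {A : Finset G} (f : G → ℤ) :
    ∑ p ∈ A ×ˢ A, f (p.1 - p.2) = A.card * f 0 + ∑ p ∈ A.offDiag, f (p.1 - p.2) := by
  rw [← diag_union_offDiag, sum_union (disjoint_diag_offDiag A)]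
  congr 1
  rw [sum_diag]
  simp

end core

/-- a character of order two -/
theorem exists_char (G : Type) [AddCommGroup G] [Fintype G] (h : 2 ∣ Fintype.card G) :
    ∃ f : G → ℤ, (∀ a b, f (a - b) = f a * f b) ∧ (∀ a, f a = 1 ∨ f a = -1) ∧ ∑ g, f g = 0 := by
  classical
  have : Fact (Nat.Prime 2) := ⟨Nat.prime_two⟩
  have h1 : 2 ∣ Fintype.card (AddChar G ℂ) := by
    rw [AddChar.card_eq]
    exact h
  obtain ⟨χ, hχ⟩ := exists_prime_orderOf_dvd_card 2 h1
  have hne : χ ≠ 1 := by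
    rintro rfl
    rw [orderOf_one] at hχ
    omega
  have h2 : χ ^ 2 = 1 := by
    rw [← hχ]
    exact pow_orderOf_eq_one χ
  have h3 : ∀ a, χ a = 1 ∨ χ a = -1 := by
    intro a
    have h4 : χ a ^ 2 = 1 := by
      have := congrArg (fun ψ : AddChar G ℂ => ψ a) h2
      simpa using this
    have h5 : (χ a - 1) * (χ a + 1) = 0 := by linear_combination h4
    rcases mul_eq_zero.1 h5 with h6 | h6
    · exact Or.inl (sub_eq_zero.1 h6)
    · exact Or.inr (eq_neg_of_add_eq_zero_left h6)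
  have h1n : (1 : ℂ) ≠ -1 := by norm_num
  have hf : ∀ a, (((if χ a = 1 then (1 : ℤ) else -1) : ℤ) : ℂ) = χ a := by
    intro a
    rcases h3 a with h4 | h4
    · rw [if_pos h4, h4]
      simp
    · rw [if_neg (by rw [h4]; exact h1n.symm), h4]
      simp
  refine ⟨fun a => if χ a = 1 then 1 else -1, fun a b => ?_, fun a => ?_, ?_⟩
  · have h4 : χ (a - b) = χ a * χ b := by
      rw [AddChar.map_sub_eq_div]
      rcases h3 b with h5 | h5
      · rw [h5, div_one, mul_one]
      · rw [h5, div_neg, div_one, mul_neg, mul_one]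
    have h5 : ((((if χ (a - b) = 1 then (1 : ℤ) else -1) : ℤ)) : ℂ) =
        (((if χ a = 1 then (1 : ℤ) else -1) * (if χ b = 1 then (1 : ℤ) else -1) : ℤ) : ℂ) := by
      rw [Int.cast_mul, hf, hf, hf, h4]
    exact_mod_cast h5
  · dsimp only
    split_ifs
    · exact Or.inl rfl
    · exact Or.inr rfl
  · have h4 : ∑ a, χ a = 0 := AddChar.sum_eq_zero_iff_ne_zero.2 hne
    have h5 : ((∑ g, (if χ g = 1 then (1 : ℤ) else -1) : ℤ) : ℂ) = 0 := by
      rw [Int.cast_sum, ← h4]
      exact sum_congr rfl fun g _ => hf g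
    exact_mod_cast h5

theorem square_near (G : Type) [AddCommGroup G] [Fintype G] (h : 2 ∣ Fintype.card G)
    (A : Finset G) (hA : IsSidon A) (m e : ℕ) (hm : A.card = m)
    (he : Fintype.card G + m = m ^ 2 + 1 + e) :
    ∃ s : ℤ, |s ^ 2 - ((m : ℤ) - 1)| ≤ (e : ℤ) ∧ (2 : ℤ) ∣ s - (m : ℤ) := by
  classical
  obtain ⟨f, hmul, hval, hsum⟩ := exists_char G h
  have h0 : f 0 = 1 := by
    have h1 := hmul 0 0
    rw [sub_zero] at h1
    rcases hval 0 with h2 | h2
    · exact h2
    · rw [h2] at h1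
      omega
  refine ⟨∑ a ∈ A, f a, ?_, ?_⟩
  · have h1 : (∑ a ∈ A, f a) ^ 2 = ∑ p ∈ A ×ˢ A, f (p.1 - p.2) := by
      rw [sq, sum_mul_sum, sum_product]
      exact sum_congr rfl fun a _ => sum_congr rfl fun b _ => (hmul a b).symm
    have h2 := sum_split hA f
    rw [hsum, h0] at h2
    have h3 := sum_prod_eq (A := A) f
    rw [h0, mul_one, hm] at h3
    have h4 : (∑ a ∈ A, f a) ^ 2 - ((m : ℤ) - 1) = - ∑ g ∈ miss A, f g := by
      rw [h1, h3]
      linarith
    have h5 := card_miss hA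
    have h6 : (miss A).card = e := by
      rw [hm] at h5
      rw [sq] at he
      omega
    rw [h4, abs_neg, ← h6]
    refine (abs_sum_le_sum_abs _ _).trans ?_
    have h7 : ∀ g ∈ miss A, |f g| ≤ 1 := by
      intro g _
      rcases hval g with h8 | h8 <;> rw [h8] <;> simp
    refine (sum_le_sum h7).trans ?_
    simp
  · rw [← hm]
    have h1 : ∑ a ∈ A, f a - (A.card : ℤ) = ∑ a ∈ A, (f a - 1) := by
      rw [sum_sub_distrib]
      simp
    rw [h1]
    refine dvd_sum fun a _ => ?_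
    rcases hval a with h2 | h2 <;> rw [h2] <;> norm_num

/-- there is an abelian group of even order `n` with `m ^ 2 - m + 1 ≤ n ≤ m ^ 2 - m + 1 + e` which
contains a Sidon set with `m` elements -/
def EvenGroup (e m : ℕ) : Prop :=
  ∃ (G : Type) (_ : AddCommGroup G) (_ : Fintype G) (A : Finset G), 2 ∣ Fintype.card G ∧
    m ^ 2 + 1 ≤ Fintype.card G + m ∧ Fintype.card G + m ≤ m ^ 2 + 1 + e ∧ IsSidon A ∧ A.card = m

theorem near_of_evenGroup {e m : ℕ} (h : EvenGroup e m) :
    ∃ s : ℕ, (s : ℤ) ^ 2 - e ≤ (m : ℤ) - 1 ∧ (m : ℤ) - 1 ≤ (s : ℤ) ^ 2 + e := by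
  obtain ⟨G, _, _, A, h2, hlo, hhi, hA, hm⟩ := h
  obtain ⟨e', he'⟩ : ∃ e', Fintype.card G + m = m ^ 2 + 1 + e' := ⟨_, (Nat.add_sub_cancel' hlo).symm⟩
  obtain ⟨s, hs, -⟩ := square_near G h2 A hA m e' hm he'
  have h3 : (e' : ℤ) ≤ e := by
    have : e' ≤ e := by omega
    exact_mod_cast this
  have h4 := abs_le.1 hs
  refine ⟨s.natAbs, ?_, ?_⟩
  · rw [Int.natCast_natAbs, sq_abs]
    linarith [h4.1, h4.2]
  · rw [Int.natCast_natAbs, sq_abs]
    linarith [h4.1, h4.2]

theorem count (e M : ℕ) :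
    {m | m ≤ M ∧ EvenGroup e m}.ncard ≤ (2 * e + 1) * (Nat.sqrt (M + e) + 1) := by
  classical
  set T : Finset ℕ := ((range (Nat.sqrt (M + e) + 1)) ×ˢ (range (2 * e + 1))).image
    (fun p : ℕ × ℕ => p.1 ^ 2 + 1 + p.2 - e) with hT
  have hsub : {m | m ≤ M ∧ EvenGroup e m} ⊆ (T : Set ℕ) := by
    rintro m ⟨hm, h⟩
    obtain ⟨s, h1, h2⟩ := near_of_evenGroup h
    have h3 : s ^ 2 + 1 ≤ m + e := by
      zify
      linarith
    have h4 : m ≤ s ^ 2 + 1 + e := by
      zify
      linarith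
    rw [Finset.mem_coe, hT, mem_image]
    refine ⟨(s, m + e - (s ^ 2 + 1)), ?_, ?_⟩
    · rw [mem_product, mem_range, mem_range]
      refine ⟨?_, by dsimp only; omega⟩
      have h5 : s ≤ Nat.sqrt (M + e) := by
        rw [Nat.le_sqrt, ← sq]
        omega
      dsimp only
      omega
    · dsimp only
      omega
  calc {m | m ≤ M ∧ EvenGroup e m}.ncard ≤ (T : Set ℕ).ncard :=
        Set.ncard_le_ncard hsub (Finset.finite_toSet T)
    _ = T.card := Set.ncard_coe_finset T
    _ ≤ ((range (Nat.sqrt (M + e) + 1)) ×ˢ (range (2 * e + 1))).card := card_image_le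
    _ = (2 * e + 1) * (Nat.sqrt (M + e) + 1) := by
      rw [card_product, card_range, card_range, mul_comm]

theorem gap (k e : ℕ) (he : e < k) : ¬ EvenGroup e (k ^ 2 + k + 1) := by
  intro h
  obtain ⟨s, h1, h2⟩ := near_of_evenGroup h
  push_cast at h1 h2
  have he' : (e : ℤ) < k := by exact_mod_cast he
  rcases Nat.lt_or_ge k s with h3 | h3
  · have h4 : (k : ℤ) + 1 ≤ s := by exact_mod_cast h3
    nlinarith
  · have h4 : (s : ℤ) ≤ k := by exact_mod_cast h3
    have h5 : (0 : ℤ) ≤ s := Int.natCast_nonneg s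
    nlinarith

theorem involutions (G : Type) [AddCommGroup G] [Fintype G] (A : Finset G) (hA : IsSidon A)
    (m e : ℕ) (hm : A.card = m) (he : Fintype.card G + m = m ^ 2 + 1 + e) :
    {g : G | g ≠ 0 ∧ g + g = 0}.ncard ≤ e := by
  classical
  have h5 := card_miss hA
  have h6 : (miss A).card = e := by
    rw [hm] at h5
    rw [sq] at he
    omega
  have hsub : {g : G | g ≠ 0 ∧ g + g = 0} ⊆ ((miss A : Finset G) : Set G) := by
    rintro g ⟨h0, h2⟩
    rw [Finset.mem_coe, miss, mem_erase, mem_sdiff, mem_image]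
    refine ⟨h0, mem_univ _, ?_⟩
    rintro ⟨⟨a, b⟩, hab, h⟩
    rw [mem_offDiag] at hab
    have h3 : a - b = g := h
    have h4 : a + a = b + b := by
      have h7 : (a - b) + (a - b) = 0 := by rw [h3, h2]
      have h8 : a + a - (b + b) = 0 := by rw [← h7]; abel
      exact sub_eq_zero.1 h8
    rcases hA a hab.1 a hab.1 b hab.2.1 b hab.2.1 h4 with h7 | h7
    · exact hab.2.2 h7.1
    · exact hab.2.2 h7.1
  calc {g : G | g ≠ 0 ∧ g + g = 0}.ncard ≤ ((miss A : Finset G) : Set G).ncard :=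
        Set.ncard_le_ncard hsub (Finset.finite_toSet _)
    _ = e := by rw [Set.ncard_coe_finset, h6]

/-- a character of order three -/
theorem exists_char3 (G : Type) [AddCommGroup G] [Fintype G] (h : 3 ∣ Fintype.card G) :
    ∃ (χ : AddChar G ℂ) (w : ℂ), (∀ a, χ a = 1 ∨ χ a = w ∨ χ a = w ^ 2) ∧ w ≠ 1 ∧
      1 + w + w ^ 2 = 0 ∧ ∑ g, χ g = 0 ∧ ∑ g, χ g ^ 2 = 0 := by
  classical
  have : Fact (Nat.Prime 3) := ⟨Nat.prime_three⟩
  have h1 : 3 ∣ Fintype.card (AddChar G ℂ) := by
    rw [AddChar.card_eq]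
    exact h
  obtain ⟨χ, hχ⟩ := exists_prime_orderOf_dvd_card 3 h1
  have hne : χ ≠ 1 := by
    rintro rfl
    rw [orderOf_one] at hχ
    omega
  have hne2 : χ ^ 2 ≠ 1 := by
    intro h2
    have h3 := orderOf_dvd_of_pow_eq_one h2
    rw [hχ] at h3
    omega
  have h2 : χ ^ 3 = 1 := by
    rw [← hχ]
    exact pow_orderOf_eq_one χ
  have h3 : ∀ a, χ a ^ 3 = 1 := by
    intro a
    have := congrArg (fun ψ : AddChar G ℂ => ψ a) h2
    simpa using this
  obtain ⟨g, hg⟩ : ∃ g, χ g ≠ 1 := by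
    by_contra hc
    push Not at hc
    apply hne
    ext a
    rw [hc a]
    simp
  have hw : 1 + χ g + χ g ^ 2 = 0 := by
    have h4 : (χ g - 1) * (1 + χ g + χ g ^ 2) = 0 := by linear_combination h3 g
    exact (mul_eq_zero.1 h4).resolve_left (sub_ne_zero.2 hg)
  refine ⟨χ, χ g, fun a => ?_, hg, hw, AddChar.sum_eq_zero_iff_ne_zero.2 hne, ?_⟩
  · have h5 : (χ a - 1) * ((χ a - χ g) * (χ a - χ g ^ 2)) = 0 := by
      linear_combination h3 a - h3 g + (- χ a ^ 2 + χ g * χ a) * hw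
    rcases mul_eq_zero.1 h5 with h6 | h6
    · exact Or.inl (sub_eq_zero.1 h6)
    · rcases mul_eq_zero.1 h6 with h7 | h7
      · exact Or.inr (Or.inl (sub_eq_zero.1 h7))
      · exact Or.inr (Or.inr (sub_eq_zero.1 h7))
  · have h4 : ∑ a, (χ ^ 2) a = 0 := AddChar.sum_eq_zero_iff_ne_zero.2 hne2
    simpa using h4

theorem norm_near (G : Type) [AddCommGroup G] [Fintype G] (h : 3 ∣ Fintype.card G)
    (A : Finset G) (hA : IsSidon A) (m e : ℕ) (hm : A.card = m)
    (he : Fintype.card G + m = m ^ 2 + 1 + e) :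
    ∃ x y : ℤ, |x ^ 2 + x * y + y ^ 2 - ((m : ℤ) - 1)| ≤ (e : ℤ) ∧
      (3 : ℤ) ∣ x ^ 2 + x * y + y ^ 2 - (m : ℤ) ^ 2 := by
  classical
  obtain ⟨χ, w, hval, hw1, hw, hs1, hs2⟩ := exists_char3 G h
  have hw0 : w ≠ 0 := by
    rintro rfl
    norm_num at hw
  have hw3 : w ^ 3 = 1 := by linear_combination (w - 1) * hw
  have hww : w ≠ w ^ 2 := by
    intro h1
    apply hw1
    have h2 : w * (w - 1) = 0 := by linear_combination -h1
    exact sub_eq_zero.1 ((mul_eq_zero.1 h2).resolve_left hw0)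
  have hw21 : w ^ 2 ≠ 1 := by
    intro h1
    apply hw1
    linear_combination hw3 - w * h1
  set f : G → ℤ := fun g => if χ g = 1 then 2 else -1 with hf
  have hfc : ∀ g, ((f g : ℤ) : ℂ) = χ g + χ g ^ 2 := by
    intro g
    rw [hf]
    dsimp only
    rcases hval g with h1 | h1 | h1
    · rw [if_pos h1, h1]
      norm_num
    · rw [if_neg (by rw [h1]; exact hw1), h1]
      push_cast
      linear_combination -hw
    · rw [if_neg (by rw [h1]; exact hw21), h1]
      push_cast
      linear_combination -hw - w * hw3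
  have hsum : ∑ g, f g = 0 := by
    have h1 : ((∑ g, f g : ℤ) : ℂ) = 0 := by
      rw [Int.cast_sum, sum_congr rfl fun g _ => hfc g, sum_add_distrib, hs1, hs2, add_zero]
    exact_mod_cast h1
  have h0 : f 0 = 2 := by
    rw [hf]
    simp
  have hχ0 : ∀ a, χ a ≠ 0 := by
    intro a
    rcases hval a with h1 | h1 | h1 <;> rw [h1]
    · exact one_ne_zero
    · exact hw0
    · exact pow_ne_zero 2 hw0
  have hfd : ∀ a b, f (a - b) = 3 * (if χ b = χ a then 1 else 0) - 1 := by
    intro a b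
    have h1 : χ (a - b) = 1 ↔ χ b = χ a := by
      rw [AddChar.map_sub_eq_div, div_eq_one_iff_eq (hχ0 b), eq_comm]
    rw [hf]
    dsimp only
    by_cases h2 : χ b = χ a
    · rw [if_pos (h1.2 h2), if_pos h2]
      norm_num
    · rw [if_neg (fun h3 => h2 (h1.1 h3)), if_neg h2]
      norm_num
  set c : ℂ → ℤ := fun z => ((A.filter fun a => χ a = z).card : ℤ) with hc
  have hin : ∀ a, ∑ b ∈ A, f (a - b) = 3 * c (χ a) - (m : ℤ) := by
    intro a
    rw [sum_congr rfl fun b _ => hfd a b, sum_sub_distrib, ← mul_sum]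
    congr 1
    · rw [hc]
      dsimp only
      rw [card_filter]
      push_cast
      rfl
    · simp [hm]
  have hZ : ∀ a ∈ A, χ a ∈ ({1, w, w ^ 2} : Finset ℂ) := by
    intro a _
    simp only [mem_insert, mem_singleton]
    exact hval a
  have hn1 : (1 : ℂ) ∉ ({w, w ^ 2} : Finset ℂ) := by
    simp only [mem_insert, mem_singleton, not_or]
    exact ⟨fun h1 => hw1 h1.symm, fun h1 => hw21 h1.symm⟩
  have hn2 : w ∉ ({w ^ 2} : Finset ℂ) := by
    simp only [mem_singleton]
    exact hww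
  have hm3 : c 1 + (c w + c (w ^ 2)) = m := by
    have h1 := card_eq_sum_card_fiberwise hZ
    rw [sum_insert hn1, sum_insert hn2, sum_singleton, hm] at h1
    rw [hc]
    dsimp only
    exact_mod_cast h1.symm
  have hq : ∑ a ∈ A, c (χ a) = c 1 ^ 2 + (c w ^ 2 + c (w ^ 2) ^ 2) := by
    rw [← sum_fiberwise_of_maps_to hZ, sum_insert hn1, sum_insert hn2, sum_singleton]
    have h1 : ∀ z, ∑ a ∈ A.filter (fun a => χ a = z), c (χ a) = c z ^ 2 := by
      intro z
      rw [sum_congr rfl fun a ha => by rw [(mem_filter.1 ha).2], sum_const, sq, nsmul_eq_mul]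
    rw [h1, h1, h1]
  have hS : ∑ p ∈ A ×ˢ A, f (p.1 - p.2) =
      3 * (c 1 ^ 2 + (c w ^ 2 + c (w ^ 2) ^ 2)) - (m : ℤ) ^ 2 := by
    rw [sum_product, sum_congr rfl fun a _ => hin a, sum_sub_distrib, ← mul_sum, hq]
    simp [hm, sq]
  have h2 := sum_split hA f
  rw [hsum, h0] at h2
  have h3 := sum_prod_eq (A := A) f
  rw [h0, hm, hS] at h3
  have h5 := card_miss hA
  have h6 : (miss A).card = e := by
    rw [hm] at h5
    rw [sq] at he
    omega
  have h7 : |∑ g ∈ miss A, f g| ≤ 2 * (e : ℤ) := by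
    refine (abs_sum_le_sum_abs _ _).trans ?_
    have h8 : ∀ g ∈ miss A, |f g| ≤ 2 := by
      intro g _
      rw [hf]
      dsimp only
      split_ifs <;> norm_num
    refine (sum_le_sum h8).trans ?_
    rw [sum_const, h6, nsmul_eq_mul, mul_comm]
  have h9 : 2 * ((c 1 - c w) ^ 2 + (c 1 - c w) * (c w - c (w ^ 2)) + (c w - c (w ^ 2)) ^ 2) =
      3 * (c 1 ^ 2 + (c w ^ 2 + c (w ^ 2) ^ 2)) - (m : ℤ) ^ 2 := by
    rw [← hm3]
    ring
  refine ⟨c 1 - c w, c w - c (w ^ 2), ?_, ?_⟩
  · have h10 := abs_le.1 h7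
    rw [abs_le]
    constructor <;> linarith [h10.1, h10.2]
  · have h11 : 2 * ((c 1 - c w) ^ 2 + (c 1 - c w) * (c w - c (w ^ 2)) +
        (c w - c (w ^ 2)) ^ 2 - (m : ℤ) ^ 2) =
        3 * (c 1 ^ 2 + (c w ^ 2 + c (w ^ 2) ^ 2) - (m : ℤ) ^ 2) := by
      linarith
    omega

/-- **Necessary conditions for groups with large Sidon sets.** -/
theorem result :
    (∀ (G : Type) [AddCommGroup G] [Fintype G] (A : Finset G) (m e : ℕ), IsSidon A →
      A.card = m → Fintype.card G + m = m ^ 2 + 1 + e →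
      {g : G | g ≠ 0 ∧ g + g = 0}.ncard ≤ e ∧
      (2 ∣ Fintype.card G →
        ∃ s : ℤ, |s ^ 2 - ((m : ℤ) - 1)| ≤ (e : ℤ) ∧ (2 : ℤ) ∣ s - (m : ℤ)) ∧
      (3 ∣ Fintype.card G →
        ∃ x y : ℤ, |x ^ 2 + x * y + y ^ 2 - ((m : ℤ) - 1)| ≤ (e : ℤ) ∧
          (3 : ℤ) ∣ x ^ 2 + x * y + y ^ 2 - (m : ℤ) ^ 2)) ∧
    (∀ k e : ℕ, e < k → ¬ EvenGroup e (k ^ 2 + k + 1)) ∧
    ∀ e M : ℕ, {m | m ≤ M ∧ EvenGroup e m}.ncard ≤ (2 * e + 1) * (Nat.sqrt (M + e) + 1) :=
  ⟨fun G _ _ A m e hA hm he => ⟨involutions G A hA m e hm he,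
    fun h2 => square_near G h2 A hA m e hm he, fun h3 => norm_near G h3 A hA m e hm he⟩,
    gap, count⟩

end Pool.Agent.Results.MP_f1f170_co.EvenOrder
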